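import Mathlib

set_option autoImplicit false

open Filter Topology Set Metric
open scoped RealInnerProductSpace

namespace Pool.Agent.Results.MP_83d7ff_an.SemidifferentiablePLQ

/-- `ℝⁿ` -/
abbrev E (n : ℕ) : Type := EuclideanSpace ℝ (Fin n)

/-- Quadratic functions `½ xᵀ Q x + bᵀ x + c`. -/
def IsQuadratic {n : ℕ} (q : E n → ℝ) : Prop :=
  ∃ (Q : E n →ₗ[ℝ] E n) (b : E n) (c : ℝ), ∀ x, q x = 1 / 2 * ⟪x, Q x⟫ + ⟪b, x⟫ + c

/-- Polyhedra: finite intersections of closed half-spaces (`a = 0` is allowed, so the empty set and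
the whole space are included). -/
def IsPolyhedron {n : ℕ} (P : Set (E n)) : Prop :=
  ∃ (m : ℕ) (a : Fin m → E n) (β : Fin m → ℝ), P = {x | ∀ i, ⟪a i, x⟫ ≤ β i}

/-- Piecewise quadratic functions: continuous selections of finitely many quadratic functions. -/
def IsPQ {n : ℕ} (f : E n → ℝ) : Prop :=
  Continuous f ∧ ∃ (m : ℕ) (q : Fin m → E n → ℝ), (∀ i, IsQuadratic (q i)) ∧ ∀ x, ∃ i, f x = q i x

/-- Piecewise linear-quadratic functions on `ℝⁿ`. -/
def IsPLQ {n : ℕ} (f : E n → ℝ) : Prop :=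
  Continuous f ∧ ∃ (m : ℕ) (q : Fin m → E n → ℝ) (P : Fin m → Set (E n)),
    (∀ i, IsQuadratic (q i)) ∧ (∀ i, IsPolyhedron (P i)) ∧ (⋃ i, P i) = univ ∧
    ∀ i, ∀ x ∈ P i, f x = q i x

/-- `D` is the semiderivative `df(x)`: for every `v`,
`(f(x + τ v') - f(x)) / τ → D v` as `τ ↓ 0`, `v' → v`. -/
def HasSemideriv {n : ℕ} (f : E n → ℝ) (x : E n) (D : E n → ℝ) : Prop :=
  ∀ v, Tendsto (fun p : ℝ × E n => (f (x + p.1 • p.2) - f x) / p.1) (𝓝[>] 0 ×ˢ 𝓝 v) (𝓝 (D v))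

/-- `f` is twice semidifferentiable at `x`. -/
def TwiceSemidiff {n : ℕ} (f : E n → ℝ) (x : E n) : Prop :=
  ∃ D : E n → ℝ, HasSemideriv f x D ∧ ∀ w, ∃ l : ℝ,
    Tendsto (fun p : ℝ × E n => (f (x + p.1 • p.2) - f x - p.1 * D p.2) / p.1 ^ 2)
      (𝓝[>] 0 ×ˢ 𝓝 w) (𝓝 l)

section Quad

variable {F : Type*} [NormedAddCommGroup F] [InnerProductSpace ℝ F] [FiniteDimensional ℝ F]

/-- quadratic data with a symmetric map -/
structure QD (q : F → ℝ) (S : F →L[ℝ] F) (b : F) (c : ℝ) : Prop where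
  sym : ∀ x y, ⟪S x, y⟫ = ⟪x, S y⟫
  eq : ∀ x, q x = 1 / 2 * ⟪x, S x⟫ + ⟪b, x⟫ + c

omit [FiniteDimensional ℝ F] in
lemma QD.expand {q : F → ℝ} {S : F →L[ℝ] F} {b : F} {c : ℝ} (h : QD q S b c) (x y : F) :
    q (x + y) = q x + ⟪S x + b, y⟫ + 1 / 2 * ⟪y, S y⟫ := by
  rw [h.eq, h.eq, map_add, inner_add_left, inner_add_right, inner_add_right, inner_add_right,
    inner_add_left]
  have h1 : ⟪y, S x⟫ = ⟪S x, y⟫ := real_inner_comm _ _
  have h2 : ⟪x, S y⟫ = ⟪S x, y⟫ := (h.sym x y).symm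
  rw [h1, h2]
  ring

omit [FiniteDimensional ℝ F] in
lemma QD.cont {q : F → ℝ} {S : F →L[ℝ] F} {b : F} {c : ℝ} (h : QD q S b c) : Continuous q := by
  have : q = fun x => 1 / 2 * ⟪x, S x⟫ + ⟪b, x⟫ + c := funext h.eq
  rw [this]
  fun_prop

omit [FiniteDimensional ℝ F] in
lemma QD.neg {q : F → ℝ} {S : F →L[ℝ] F} {b : F} {c : ℝ} (h : QD q S b c) :
    QD (fun x => -q x) (-S) (-b) (-c) where
  sym := fun x y => by simp [h.sym]
  eq := fun x => by simp [h.eq]; ring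

omit [FiniteDimensional ℝ F] in
lemma QD.sub {q q' : F → ℝ} {S S' : F →L[ℝ] F} {b b' : F} {c c' : ℝ} (h : QD q S b c)
    (h' : QD q' S' b' c') : QD (fun x => q x - q' x) (S - S') (b - b') (c - c') where
  sym := fun x y => by simp [h.sym, h'.sym, inner_sub_left, inner_sub_right]
  eq := fun x => by simp [h.eq, h'.eq, inner_sub_left, inner_sub_right]; ring

/-- products of two affine functions -/
def Fact (q : F → ℝ) : Prop :=
  ∃ (a₁ : F) (β₁ : ℝ) (a₂ : F) (β₂ : ℝ), ∀ x, q x = (⟪a₁, x⟫ + β₁) * (⟪a₂, x⟫ + β₂)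

omit [FiniteDimensional ℝ F] in
/-- a quadratic function vanishing to first order at `x` is `½ ⟪y, S y⟫` in `y = z - x`; if the
quadratic form vanishes on `g^⊥` then the function factors -/
lemma fact_of_perp {q : F → ℝ} {S : F →L[ℝ] F} {b : F} {c : ℝ} (h : QD q S b c) {x g : F}
    (hx : q x = 0) (hg : S x + b = g) (hg0 : g ≠ 0)
    (hp : ∀ w, ⟪g, w⟫ = 0 → ⟪w, S w⟫ = 0) : Fact q := by
  have hgg : 0 < ⟪g, g⟫ := real_inner_self_pos.mpr hg0
  obtain ⟨e, hge⟩ : ∃ e : F, ⟪g, e⟫ = 1 := by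
    refine ⟨⟪g, g⟫⁻¹ • g, ?_⟩
    rw [inner_smul_right, inv_mul_cancel₀ hgg.ne']
  obtain ⟨η, hη⟩ : ∃ η : F, η = S e - (1 / 2 * ⟪e, S e⟫) • g := ⟨_, rfl⟩
  refine ⟨g, -⟪g, x⟫, η, 1 - ⟪η, x⟫, fun z => ?_⟩
  obtain ⟨y, hy⟩ : ∃ y, y = z - x := ⟨_, rfl⟩
  have hz : z = x + y := by rw [hy]; abel
  have h1 : q z = ⟪g, y⟫ + 1 / 2 * ⟪y, S y⟫ := by
    rw [hz, h.expand x y, hx, hg, zero_add]
  have h2 : ⟪g, z⟫ + -⟪g, x⟫ = ⟪g, y⟫ := by rw [hz, inner_add_right]; ring
  have h3 : ⟪η, z⟫ + (1 - ⟪η, x⟫) = 1 + ⟪η, y⟫ := by rw [hz, inner_add_right]; ring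
  rw [h1, h2, h3]
  -- decomposition of y
  obtain ⟨w, hw⟩ : ∃ w, w = y - ⟪g, y⟫ • e := ⟨_, rfl⟩
  have hgw : ⟪g, w⟫ = 0 := by
    rw [hw, inner_sub_right, inner_smul_right, hge, mul_one, sub_self]
  have hww := hp w hgw
  have h4 : ⟪w, S w⟫ = ⟪y, S y⟫ - 2 * ⟪g, y⟫ * ⟪S e, y⟫ + ⟪g, y⟫ ^ 2 * ⟪e, S e⟫ := by
    rw [hw, map_sub, map_smul, inner_sub_left, inner_sub_right, inner_sub_right,
      inner_smul_left, inner_smul_left, inner_smul_right, inner_smul_right]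
    have h5 : ⟪y, S e⟫ = ⟪S e, y⟫ := real_inner_comm _ _
    have h6 : ⟪e, S y⟫ = ⟪S e, y⟫ := (h.sym e y).symm
    rw [h5, h6]
    simp
    ring
  have h5 : ⟪η, y⟫ = ⟪S e, y⟫ - 1 / 2 * ⟪e, S e⟫ * ⟪g, y⟫ := by
    rw [hη, inner_sub_left, inner_smul_left]; simp
  rw [h5]
  rw [hww] at h4
  linear_combination (-1 / 2) * h4

omit [FiniteDimensional ℝ F] in
/-- a quadratic function with a singular zero `s` whose form has rank at most one factors -/
lemma fact_of_rank {q : F → ℝ} {S : F →L[ℝ] F} {b : F} {c : ℝ} (h : QD q S b c) {s v : F}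
    (hs : q s = 0) (hg : S s + b = 0) (hv : v ≠ 0) (hp : ∀ w, ⟪w, v⟫ = 0 → S w = 0) : Fact q := by
  have hvv : 0 < ⟪v, v⟫ := real_inner_self_pos.mpr hv
  obtain ⟨e, hve⟩ : ∃ e : F, ⟪e, v⟫ = 1 := by
    refine ⟨⟪v, v⟫⁻¹ • v, ?_⟩
    rw [inner_smul_left, conj_trivial, inv_mul_cancel₀ hvv.ne']
  refine ⟨(1 / 2 * ⟪e, S e⟫) • v, -(1 / 2 * ⟪e, S e⟫) * ⟪v, s⟫, v, -⟪v, s⟫, fun z => ?_⟩
  obtain ⟨y, hy⟩ : ∃ y, y = z - s := ⟨_, rfl⟩
  have hz : z = s + y := by rw [hy]; abel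
  have h1 : q z = 1 / 2 * ⟪y, S y⟫ := by
    rw [hz, h.expand s y, hs, hg, inner_zero_left]; ring
  have h2 : ⟪v, z⟫ + -⟪v, s⟫ = ⟪v, y⟫ := by rw [hz, inner_add_right]; ring
  have h3 : ⟪(1 / 2 * ⟪e, S e⟫) • v, z⟫ + -(1 / 2 * ⟪e, S e⟫) * ⟪v, s⟫ =
      (1 / 2 * ⟪e, S e⟫) * ⟪v, y⟫ := by
    rw [inner_smul_left, hz, inner_add_right]; simp; ring
  rw [h1, h2, h3]
  obtain ⟨w, hw⟩ : ∃ w, w = y - ⟪v, y⟫ • e := ⟨_, rfl⟩
  have hwv : ⟪w, v⟫ = 0 := by
    rw [hw, inner_sub_left, inner_smul_left, hve]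
    simp [real_inner_comm]
  have h4 := hp w hwv
  have h5 : S y = ⟪v, y⟫ • S e := by
    rw [hw, map_sub, map_smul, sub_eq_zero] at h4
    exact h4
  have h6 : ⟪y, S y⟫ = ⟪v, y⟫ * ⟪v, y⟫ * ⟪e, S e⟫ := by
    have h7 : ⟪y, S e⟫ = ⟪v, y⟫ * ⟪e, S e⟫ := by
      rw [← h.sym y e, h5, inner_smul_left, h.sym e e]; simp
    rw [h5, inner_smul_right, h7]; ring
  rw [h6]; ring

omit [FiniteDimensional ℝ F] in
lemma exists_ne_zero {O : Set F} (hO : IsOpen O) (hne : O.Nonempty) {u : F} {r : ℝ} (d : F)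
    (hd : ⟪u, d⟫ ≠ 0) : ∃ y ∈ O, ⟪u, y⟫ + r ≠ 0 := by
  obtain ⟨y0, hy0⟩ := hne
  by_cases h : ⟪u, y0⟫ + r = 0
  · have hc : Continuous fun t : ℝ => y0 + t • d := by fun_prop
    have h1 : ∀ᶠ t : ℝ in 𝓝[≠] 0, y0 + t • d ∈ O := by
      refine nhdsWithin_le_nhds (hc.continuousAt.eventually_mem ?_)
      simpa using hO.mem_nhds hy0
    obtain ⟨t, ht, ht0⟩ := (h1.and self_mem_nhdsWithin).exists
    refine ⟨_, ht, ?_⟩
    rw [inner_add_right, inner_smul_right]
    have : ⟪u, y0⟫ + t * ⟪u, d⟫ + r = t * ⟪u, d⟫ := by linarith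
    rw [this]
    exact mul_ne_zero ht0 hd
  · exact ⟨y0, hy0, h⟩

omit [FiniteDimensional ℝ F] in
/-- the segment lemma: a segment between two open sets avoiding the singular zeros of `q` -/
lemma seg {q : F → ℝ} {S : F →L[ℝ] F} {b : F} {c : ℝ} (h : QD q S b c) (hF : ¬ Fact q)
    {O₁ O₂ : Set F} (h1 : IsOpen O₁) (h2 : IsOpen O₂) (n1 : O₁.Nonempty) (n2 : O₂.Nonempty) :
    ∃ y ∈ O₁, ∃ z ∈ O₂, ∀ x ∈ segment ℝ y z, ¬ (q x = 0 ∧ S x + b = 0) := by
  by_cases hs : ∃ s, q s = 0 ∧ S s + b = 0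
  · obtain ⟨s, hs0, hs1⟩ := hs
    -- S is not zero
    obtain ⟨d, hd⟩ : ∃ d, S d ≠ 0 := by
      by_contra hcon
      push Not at hcon
      refine hF ⟨0, 0, 0, 0, fun x => ?_⟩
      have := h.expand s (x - s)
      rw [hs0, hs1, hcon] at this
      simpa using this
    obtain ⟨y, hy, hy1⟩ := exists_ne_zero h1 n1 (u := S (S d)) (r := -⟪S (S d), s⟫) d (by
      rw [h.sym]
      exact (real_inner_self_pos.mpr hd).ne')
    set v := S (y - s) with hv
    have hv0 : v ≠ 0 := by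
      intro h0
      apply hy1
      have h3 : ⟪S (S d), y⟫ + -⟪S (S d), s⟫ = ⟪S (S d), y - s⟫ := by rw [inner_sub_right]; ring
      rw [h3, h.sym, ← hv, h0, inner_zero_right]
    obtain ⟨w, hw1, hw2⟩ : ∃ w, ⟪w, v⟫ = 0 ∧ S w ≠ 0 := by
      by_contra hcon
      push Not at hcon
      exact hF (fact_of_rank h hs0 hs1 hv0 hcon)
    obtain ⟨z, hz, hz1⟩ := exists_ne_zero h2 n2 (u := S w) (r := -⟪S w, s⟫) (S w)
      (real_inner_self_pos.mpr hw2).ne'
    refine ⟨y, hy, z, hz, ?_⟩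
    rintro x hx ⟨-, hx2⟩
    rw [segment_eq_image'] at hx
    obtain ⟨t, ht, rfl⟩ := hx
    have h3 : S (y + t • (z - y)) - S s = 0 := by
      have : S (y + t • (z - y)) + b - (S s + b) = 0 := by rw [hx2, hs1, sub_zero]
      simpa using this
    have h4 : S (y + t • (z - y)) - S s = (1 - t) • v + t • S (z - s) := by
      rw [hv]
      simp only [map_add, map_sub, map_smul, smul_sub, sub_smul, one_smul]
      abel
    rw [h4] at h3
    by_cases ht0 : t = 0
    · rw [ht0] at h3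
      simp at h3
      exact hv0 h3
    · have h5 := congrArg (fun a => ⟪w, a⟫) h3
      simp only [inner_add_right, inner_smul_right, inner_zero_right] at h5
      rw [hw1, mul_zero, zero_add] at h5
      rcases mul_eq_zero.mp h5 with h6 | h6
      · exact ht0 h6
      · apply hz1
        have : ⟪S w, z⟫ + -⟪S w, s⟫ = ⟪w, S (z - s)⟫ := by
          rw [← h.sym, inner_sub_right]; ring
        rw [this, h6]
  · push Not at hs
    obtain ⟨y, hy⟩ := n1
    obtain ⟨z, hz⟩ := n2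
    exact ⟨y, hy, z, hz, fun x _ hx => hs x hx.1 hx.2⟩

omit [FiniteDimensional ℝ F] in
/-- a nonzero quadratic function does not vanish on an open set -/
lemma nonvanish {q : F → ℝ} {S : F →L[ℝ] F} {b : F} {c : ℝ} (h : QD q S b c)
    {O : Set F} (hO : IsOpen O) (hne : O.Nonempty) (hz : ∀ x ∈ O, q x = 0) : ∀ x, q x = 0 := by
  obtain ⟨x0, hx0⟩ := hne
  intro x
  set y := x - x0 with hy
  have hx : x = x0 + (1 : ℝ) • y := by rw [hy, one_smul]; abel
  have hexp : ∀ t : ℝ, q (x0 + t • y) = t * ⟪S x0 + b, y⟫ + t ^ 2 * (1 / 2 * ⟪y, S y⟫) := by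
    intro t
    rw [h.expand, hz x0 hx0, map_smul, inner_smul_right, inner_smul_left, inner_smul_right]
    simp
    ring
  have hc : Continuous fun t : ℝ => x0 + t • y := by fun_prop
  have h1 : ∀ᶠ t : ℝ in 𝓝 0, x0 + t • y ∈ O := by
    refine hc.continuousAt.eventually_mem ?_
    simpa using hO.mem_nhds hx0
  obtain ⟨ε, hε, hball⟩ := Metric.eventually_nhds_iff.mp h1
  have e1 := hz _ (hball (y := ε / 2) (by
    rw [Real.dist_eq, sub_zero, abs_of_pos (by positivity)]; linarith))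
  have e2 := hz _ (hball (y := -(ε / 2)) (by
    rw [Real.dist_eq, sub_zero, abs_neg, abs_of_pos (by positivity)]; linarith))
  rw [hexp] at e1 e2
  have e3 : ε / 2 * ⟪S x0 + b, y⟫ = 0 := by linarith
  have e4 : (ε / 2) ^ 2 * (1 / 2 * ⟪y, S y⟫) = 0 := by linarith
  have e5 : ⟪S x0 + b, y⟫ = 0 := by
    rcases mul_eq_zero.mp e3 with h | h
    · linarith
    · exact h
  have e6 : 1 / 2 * ⟪y, S y⟫ = 0 := by
    rcases mul_eq_zero.mp e4 with h | h
    · exact absurd h (by positivity)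
    · exact h
  rw [hx, hexp, e5, e6]
  ring

omit [FiniteDimensional ℝ F] in
/-- one side of a regular zero lies in a single open piece -/
lemma side {q : F → ℝ} {S : F →L[ℝ] F} {b : F} {c : ℝ} (h : QD q S b c) {x1 : F}
    (hx1 : q x1 = 0) (hg : S x1 + b ≠ 0) {O : Set F} (hO : IsOpen O) (hxO : x1 ∈ O)
    {ι : Type*} (U : ι → Set F) (hU : ∀ i, IsOpen (U i))
    (hdisj : ∀ i j, i ≠ j → Disjoint (U i) (U j)) (hcov : ∀ x ∈ O, q x ≠ 0 → ∃ i, x ∈ U i) :
    ∃ k, ∃ ρ > 0, ∀ x ∈ ball x1 ρ, 0 < q x → x ∈ U k := by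
  set g := S x1 + b with hgdef
  have hgg : 0 < ⟪g, g⟫ := real_inner_self_pos.mpr hg
  have hcont : Continuous fun x : F => ⟪S x + b, g⟫ := by fun_prop
  have hOev : ∀ᶠ x in 𝓝 x1, x ∈ O := hO.mem_nhds hxO
  have hnear : ∀ᶠ x in 𝓝 x1, x ∈ O ∧ 0 < ⟪S x + b, g⟫ :=
    hOev.and (hcont.continuousAt.eventually_mem (lt_mem_nhds hgg))
  obtain ⟨R, hR, hball⟩ := Metric.eventually_nhds_iff.mp hnear
  -- monotonicity along g
  have hmono : ∀ (x : F) (t : ℝ), 0 < t → dist x x1 < R → dist (x + t • g) x1 < R → q x < q (x + t • g) := by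
    intro x t ht h1 h2
    have p1 := (hball h1).2
    have p2 := (hball h2).2
    rw [h.expand x (t • g)]
    rw [map_add, map_smul, add_right_comm, inner_add_left] at p2
    rw [map_smul, inner_smul_right, inner_smul_left, inner_smul_right]
    rw [inner_smul_left] at p2
    simp only [conj_trivial] at p2 ⊢
    have h3 : ⟪g, S g⟫ = ⟪S g, g⟫ := real_inner_comm _ _
    rw [h3]
    nlinarith
  have hgn : 0 < ‖g‖ := norm_pos_iff.mpr hg
  set s := R / (4 * ‖g‖) with hs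
  have hs0 : 0 < s := by positivity
  have hsg : ‖s • g‖ = R / 4 := by
    rw [norm_smul, Real.norm_eq_abs, abs_of_pos hs0, hs]; field_simp
  have hpos : 0 < q (x1 + s • g) := by
    rw [← hx1]
    refine hmono x1 s hs0 (by rw [dist_self]; exact hR) ?_
    rw [dist_eq_norm, add_sub_cancel_left, hsg]; linarith
  have hnear2 : ∀ᶠ x in 𝓝 (x1 + s • g), 0 < q x := h.cont.continuousAt.eventually_mem
    (lt_mem_nhds hpos)
  obtain ⟨ρ', hρ', hball'⟩ := Metric.eventually_nhds_iff.mp hnear2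
  set ρ := min ρ' (R / 4) with hρ
  have hρ0 : 0 < ρ := lt_min hρ' (by positivity)
  have hρR : ρ ≤ R / 4 := min_le_right _ _
  have hin : ∀ x, dist x x1 < R → q x ≠ 0 → ∃ i, x ∈ U i := fun x hx hq =>
    hcov x (hball hx).1 hq
  have hc0 : dist (x1 + s • g) x1 < R := by
    rw [dist_eq_norm, add_sub_cancel_left, hsg]; linarith
  obtain ⟨k, hk⟩ := hin _ hc0 hpos.ne'
  refine ⟨k, ρ, hρ0, fun x hx hqx => ?_⟩
  rw [mem_ball] at hx
  -- the connected set
  set A : Set F := segment ℝ x (x + s • g) ∪ segment ℝ (x + s • g) (x1 + s • g) with hA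
  have hApre : IsPreconnected A := by
    refine IsPreconnected.union (x + s • g) (right_mem_segment ℝ _ _) (left_mem_segment ℝ _ _)
      (convex_segment _ _).isPreconnected (convex_segment _ _).isPreconnected
  have hAU : ∀ y ∈ A, ∃ i, y ∈ U i := by
    rintro y (hy | hy)
    · rw [segment_eq_image'] at hy
      obtain ⟨t, ht, rfl⟩ := hy
      simp only [add_sub_cancel_left]
      have hd : dist (x + t • s • g) x1 < R := by
        have e1 : dist (x + t • s • g) x ≤ R / 4 := by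
          rw [dist_eq_norm, add_sub_cancel_left, norm_smul, hsg, Real.norm_eq_abs,
            abs_of_nonneg ht.1]
          have : 0 ≤ R / 4 := by positivity
          nlinarith [ht.2]
        have := dist_triangle (x + t • s • g) x x1
        linarith
      refine hin _ hd ?_
      rcases eq_or_lt_of_le ht.1 with h0 | h0
      · rw [← h0, zero_smul, add_zero]; exact hqx.ne'
      · have := hmono x (t * s) (by positivity) (by linarith) (by rwa [← smul_smul])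
        rw [← smul_smul] at this
        exact (hqx.trans this).ne'
    · have hmem : y ∈ ball (x1 + s • g) ρ := by
        refine (convex_ball _ _).segment_subset ?_ (mem_ball_self hρ0) hy
        rw [mem_ball, dist_add_right]
        exact hx
      rw [mem_ball] at hmem
      have hd : dist y x1 < R := by
        have := dist_triangle y (x1 + s • g) x1
        rw [dist_eq_norm (x1 + s • g) x1, add_sub_cancel_left, hsg] at this
        linarith
      refine hin _ hd (hball' (hmem.trans_le (min_le_left _ _))).ne'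
  have hsub : A ⊆ U k ∪ ⋃ i ∈ {i | i ≠ k}, U i := by
    intro y hy
    obtain ⟨i, hi⟩ := hAU y hy
    by_cases hik : i = k
    · left; rwa [← hik]
    · right
      exact mem_biUnion (show i ∈ {i | i ≠ k} from hik) hi
  have hd2 : Disjoint (U k) (⋃ i ∈ {i | i ≠ k}, U i) := by
    rw [disjoint_iUnion₂_right]
    intro i hi
    exact hdisj k i (Ne.symm hi)
  have hfin := hApre.subset_left_of_subset_union (hU k) (isOpen_biUnion fun i _ => hU i) hd2 hsub
    ⟨x1 + s • g, Or.inr (right_mem_segment ℝ _ _), hk⟩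
  exact hfin (Or.inl (left_mem_segment ℝ _ _))

end Quad

lemma exists_qd {n : ℕ} {q : E n → ℝ} (h : IsQuadratic q) :
    ∃ (S : E n →L[ℝ] E n) (b : E n) (c : ℝ), QD q S b c := by
  obtain ⟨Q, b, c, hq⟩ := h
  set A : E n →L[ℝ] E n := LinearMap.toContinuousLinearMap Q with hA
  refine ⟨(1 / 2 : ℝ) • (A + ContinuousLinearMap.adjoint A), b, c, ⟨fun x y => ?_, fun x => ?_⟩⟩
  · simp only [_root_.smul_apply, _root_.add_apply, inner_smul_left,
      inner_smul_right, inner_add_left, inner_add_right, ContinuousLinearMap.adjoint_inner_left,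
      ContinuousLinearMap.adjoint_inner_right, conj_trivial]
    ring
  · rw [hq]
    have h1 : ⟪x, Q x⟫ = ⟪x, A x⟫ := rfl
    simp only [_root_.smul_apply, _root_.add_apply,
      inner_smul_right, inner_add_right, ContinuousLinearMap.adjoint_inner_right]
    rw [h1, real_inner_comm x (A x)]
    ring

lemma kink_aux {n : ℕ} {f : E n → ℝ} {D : E n → ℝ} {x1 g gp w : E n} {Sp S : E n →L[ℝ] E n}
    {ρ ε σ t : ℝ}
    (hexp : ∀ (t : ℝ) (v : E n), 0 ≤ t → x1 + t • v ∈ ball x1 ρ →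
      f (x1 + t • v) - f x1 = t * ⟪gp, v⟫ + t ^ 2 * (1 / 2 * ⟪v, Sp v⟫) +
        ε * (t * max (⟪g, v⟫ + t * (1 / 2 * ⟪v, S v⟫)) 0))
    (hDv : ∀ v, D v = ⟪gp, v⟫ + ε * max ⟪g, v⟫ 0)
    (hmaxmul : ∀ (t a : ℝ), 0 ≤ t → max (t * a) 0 = t * max a 0)
    (hw : ⟪g, w⟫ = 0) (ht : 0 < t) (hmem : x1 + t • (w + (t * σ) • g) ∈ ball x1 ρ) :
    (f (x1 + t • (w + (t * σ) • g)) - f x1 - t * D (w + (t * σ) • g)) / t ^ 2 =
      1 / 2 * ⟪w + (t * σ) • g, Sp (w + (t * σ) • g)⟫ +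
        ε * (max (σ * ⟪g, g⟫ + 1 / 2 * ⟪w + (t * σ) • g, S (w + (t * σ) • g)⟫) 0 -
          max (σ * ⟪g, g⟫) 0) := by
  rw [hexp t _ ht.le hmem, hDv]
  have e1 : ⟪g, w + (t * σ) • g⟫ = t * (σ * ⟪g, g⟫) := by
    rw [inner_add_right, inner_smul_right, hw]; ring
  rw [e1, hmaxmul _ _ ht.le]
  have e2 : t * (σ * ⟪g, g⟫) + t * (1 / 2 * ⟪w + (t * σ) • g, S (w + (t * σ) • g)⟫) =
      t * (σ * ⟪g, g⟫ + 1 / 2 * ⟪w + (t * σ) • g, S (w + (t * σ) • g)⟫) := by ring
  rw [e2, hmaxmul _ _ ht.le]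
  generalize ⟪w + (t * σ) • g, Sp (w + (t * σ) • g)⟫ = A
  generalize max (σ * ⟪g, g⟫ + 1 / 2 * ⟪w + (t * σ) • g, S (w + (t * σ) • g)⟫) 0 = B
  generalize max (σ * ⟪g, g⟫) 0 = C
  generalize ⟪gp, w + (t * σ) • g⟫ = G
  have := ht.ne'
  field_simp
  ring

/-- the kink lemma -/
lemma kink {n : ℕ} {f p q : E n → ℝ} {Sp S : E n →L[ℝ] E n} {bp b : E n} {cp c : ℝ}
    (hp : QD p Sp bp cp) (hq : QD q S b c) {x1 : E n} {ρ : ℝ} (hρ : 0 < ρ) {ε : ℝ} (hε : ε ≠ 0)
    (hf : ∀ x ∈ ball x1 ρ, f x = p x + ε * max (q x) 0) (hx1 : q x1 = 0) (hg : S x1 + b ≠ 0)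
    (hd : TwiceSemidiff f x1) (w : E n) (hw : ⟪S x1 + b, w⟫ = 0) : ⟪w, S w⟫ = 0 := by
  obtain ⟨D, hD, h2⟩ := hd
  obtain ⟨g, hgd⟩ : ∃ g, g = S x1 + b := ⟨_, rfl⟩
  obtain ⟨gp, hgp⟩ : ∃ gp, gp = Sp x1 + bp := ⟨_, rfl⟩
  rw [← hgd] at hw hg
  have hgg : 0 < ⟪g, g⟫ := real_inner_self_pos.mpr hg
  have hfx1 : f x1 = p x1 := by
    rw [hf x1 (mem_ball_self hρ), hx1, max_self, mul_zero, add_zero]
  have hmaxmul : ∀ (t a : ℝ), 0 ≤ t → max (t * a) 0 = t * max a 0 := by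
    intro t a ht
    rw [mul_max_of_nonneg _ _ ht, mul_zero]
  -- local expansion
  have hexp : ∀ (t : ℝ) (v : E n), 0 ≤ t → x1 + t • v ∈ ball x1 ρ →
      f (x1 + t • v) - f x1 = t * ⟪gp, v⟫ + t ^ 2 * (1 / 2 * ⟪v, Sp v⟫) +
        ε * (t * max (⟪g, v⟫ + t * (1 / 2 * ⟪v, S v⟫)) 0) := by
    intro t v ht hmem
    have e1 : q (x1 + t • v) = t * (⟪g, v⟫ + t * (1 / 2 * ⟪v, S v⟫)) := by
      rw [hq.expand, hx1, ← hgd, map_smul, inner_smul_right, inner_smul_left, inner_smul_right]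
      simp only [conj_trivial]
      ring
    rw [hf _ hmem, hfx1, hp.expand, ← hgp, e1, hmaxmul _ _ ht, map_smul, inner_smul_right,
      inner_smul_left, inner_smul_right]
    simp only [conj_trivial]
    ring
  have hnear : ∀ c : ℝ → E n, Tendsto c (𝓝[>] 0) (𝓝 w) ∨ (∃ v, Tendsto c (𝓝[>] 0) (𝓝 v)) →
      ∀ᶠ t : ℝ in 𝓝[>] 0, 0 < t ∧ x1 + t • c t ∈ ball x1 ρ := by
    intro c hc
    obtain ⟨v, hv⟩ : ∃ v, Tendsto c (𝓝[>] 0) (𝓝 v) := by
      rcases hc with h | h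
      · exact ⟨w, h⟩
      · exact h
    have h1 : Tendsto (fun t : ℝ => x1 + t • c t) (𝓝[>] 0) (𝓝 (x1 + (0 : ℝ) • v)) :=
      tendsto_const_nhds.add ((tendsto_nhdsWithin_of_tendsto_nhds tendsto_id).smul hv)
    rw [zero_smul, add_zero] at h1
    filter_upwards [self_mem_nhdsWithin, h1.eventually_mem (ball_mem_nhds x1 hρ)] with t ht1 ht2
    exact ⟨ht1, ht2⟩
  have hid : Tendsto (fun t : ℝ => t) (𝓝[>] 0) (𝓝 0) := tendsto_nhdsWithin_of_tendsto_nhds tendsto_id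
  -- the semiderivative
  have hDv : ∀ v, D v = ⟪gp, v⟫ + ε * max ⟪g, v⟫ 0 := by
    intro v
    have hpair : Tendsto (fun t : ℝ => ((t, v) : ℝ × E n)) (𝓝[>] 0) (𝓝[>] 0 ×ˢ 𝓝 v) :=
      tendsto_id.prodMk tendsto_const_nhds
    have h3 : Tendsto (fun t : ℝ => (f (x1 + t • v) - f x1) / t) (𝓝[>] 0) (𝓝 (D v)) := by
      simpa only [Function.comp_def] using (hD v).comp hpair
    have h4 : Tendsto (fun t : ℝ => ⟪gp, v⟫ + t * (1 / 2 * ⟪v, Sp v⟫) +
        ε * max (⟪g, v⟫ + t * (1 / 2 * ⟪v, S v⟫)) 0) (𝓝[>] 0)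
        (𝓝 (⟪gp, v⟫ + 0 * (1 / 2 * ⟪v, Sp v⟫) +
        ε * max (⟪g, v⟫ + 0 * (1 / 2 * ⟪v, S v⟫)) 0)) := by
      have hc : Continuous fun t : ℝ => ⟪gp, v⟫ + t * (1 / 2 * ⟪v, Sp v⟫) +
        ε * max (⟪g, v⟫ + t * (1 / 2 * ⟪v, S v⟫)) 0 := by fun_prop
      exact (hc.tendsto 0).mono_left nhdsWithin_le_nhds
    simp only [zero_mul, add_zero] at h4
    have hev : (fun t : ℝ => (f (x1 + t • v) - f x1) / t) =ᶠ[𝓝[>] 0]
        fun t : ℝ => ⟪gp, v⟫ + t * (1 / 2 * ⟪v, Sp v⟫) +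
        ε * max (⟪g, v⟫ + t * (1 / 2 * ⟪v, S v⟫)) 0 := by
      filter_upwards [hnear (fun _ => v) (Or.inr ⟨v, tendsto_const_nhds⟩)] with t ht
      rw [hexp t v ht.1.le ht.2]
      have := ht.1.ne'
      field_simp
    exact tendsto_nhds_unique (h3.congr' hev) h4
  obtain ⟨l, hl⟩ := h2 w
  obtain ⟨κ, hκ⟩ : ∃ κ, κ = 1 / 2 * ⟪w, S w⟫ := ⟨_, rfl⟩
  have hσ : ∀ σ : ℝ, l = 1 / 2 * ⟪w, Sp w⟫ +
      ε * (max (σ * ⟪g, g⟫ + κ) 0 - max (σ * ⟪g, g⟫) 0) := by
    intro σ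
    have hc : Tendsto (fun t : ℝ => w + (t * σ) • g) (𝓝[>] 0) (𝓝 w) := by
      have : Tendsto (fun t : ℝ => w + (t * σ) • g) (𝓝[>] 0) (𝓝 (w + ((0 : ℝ) * σ) • g)) := by
        have hc : Continuous fun t : ℝ => w + (t * σ) • g := by fun_prop
        exact (hc.tendsto 0).mono_left nhdsWithin_le_nhds
      simpa using this
    have h3 : Tendsto (fun t : ℝ => (f (x1 + t • (w + (t * σ) • g)) - f x1 -
        t * D (w + (t * σ) • g)) / t ^ 2) (𝓝[>] 0) (𝓝 l) := by
      have hpair : Tendsto (fun t : ℝ => ((t, w + (t * σ) • g) : ℝ × E n)) (𝓝[>] 0)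
          (𝓝[>] 0 ×ˢ 𝓝 w) := tendsto_id.prodMk hc
      simpa only [Function.comp_def] using hl.comp hpair
    have h4 : Tendsto (fun t : ℝ => 1 / 2 * ⟪w + (t * σ) • g, Sp (w + (t * σ) • g)⟫ +
        ε * (max (σ * ⟪g, g⟫ + 1 / 2 * ⟪w + (t * σ) • g, S (w + (t * σ) • g)⟫) 0 -
          max (σ * ⟪g, g⟫) 0)) (𝓝[>] 0)
        (𝓝 (1 / 2 * ⟪w + ((0 : ℝ) * σ) • g, Sp (w + ((0 : ℝ) * σ) • g)⟫ +
        ε * (max (σ * ⟪g, g⟫ + 1 / 2 * ⟪w + ((0 : ℝ) * σ) • g, S (w + ((0 : ℝ) * σ) • g)⟫) 0 -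
          max (σ * ⟪g, g⟫) 0))) := by
      have hc : Continuous fun t : ℝ => 1 / 2 * ⟪w + (t * σ) • g, Sp (w + (t * σ) • g)⟫ +
        ε * (max (σ * ⟪g, g⟫ + 1 / 2 * ⟪w + (t * σ) • g, S (w + (t * σ) • g)⟫) 0 -
          max (σ * ⟪g, g⟫) 0) := by fun_prop
      exact (hc.tendsto 0).mono_left nhdsWithin_le_nhds
    simp only [zero_mul, zero_smul, add_zero] at h4
    rw [← hκ] at h4
    have hev : (fun t : ℝ => (f (x1 + t • (w + (t * σ) • g)) - f x1 -
        t * D (w + (t * σ) • g)) / t ^ 2) =ᶠ[𝓝[>] 0]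
        fun t : ℝ => 1 / 2 * ⟪w + (t * σ) • g, Sp (w + (t * σ) • g)⟫ +
        ε * (max (σ * ⟪g, g⟫ + 1 / 2 * ⟪w + (t * σ) • g, S (w + (t * σ) • g)⟫) 0 -
          max (σ * ⟪g, g⟫) 0) := by
     filter_upwards [hnear _ (Or.inl hc)] with t ht
     exact kink_aux hexp hDv hmaxmul hw ht.1 ht.2
    exact tendsto_nhds_unique (h3.congr' hev) h4
  have a1 := hσ (|κ| / ⟪g, g⟫)
  have a2 := hσ (-|κ| / ⟪g, g⟫)
  rw [div_mul_cancel₀ _ hgg.ne'] at a1 a2
  have b1 : max (|κ| + κ) 0 = |κ| + κ := max_eq_left (by linarith [neg_abs_le κ])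
  have b2 : max |κ| 0 = |κ| := max_eq_left (abs_nonneg κ)
  have b3 : max (-|κ| + κ) 0 = 0 := max_eq_right (by linarith [le_abs_self κ])
  have b4 : max (-|κ|) 0 = 0 := max_eq_right (by linarith [abs_nonneg κ])
  rw [b1, b2] at a1
  rw [b3, b4] at a2
  have h5 : ε * κ = 0 := by linarith
  have h6 : κ = 0 := by
    rcases mul_eq_zero.mp h5 with h | h
    · exact absurd h hε
    · exact h
  rw [hκ] at h6
  linarith

section Key

variable {n : ℕ} {f : E n → ℝ} {ι : Type} [Finite ι]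

/-- the open piece on which `f` is the selection `p` -/
def U (f : E n → ℝ) (p : E n → ℝ) : Set (E n) := interior {x | f x = p x}

theorem key (hfc : Continuous f) (p : ι → E n → ℝ) (hp : ∀ i, IsQuadratic (p i))
    (hinj : Function.Injective p) (hsel : ∀ x, ∃ i, f x = p i x) (D : Set (E n)) (hD : IsOpen D)
    (hfac : ∀ i j, i ≠ j → Fact (fun x => p i x - p j x) → ∀ x ∈ D, p i x ≠ p j x)
    (htw : ∀ x, TwiceSemidiff f x) : ∀ x ∈ D, ∃ i, x ∈ U f (p i) := by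
  classical
  have hUo : ∀ i, IsOpen (U f (p i)) := fun i => isOpen_interior
  have hqd : ∀ i j, ∃ (S : E n →L[ℝ] E n) (b : E n) (c : ℝ), QD (fun x => p i x - p j x) S b c := by
    intro i j
    obtain ⟨S, b, c, h⟩ := exists_qd (hp i)
    obtain ⟨S', b', c', h'⟩ := exists_qd (hp j)
    exact ⟨_, _, _, h.sub h'⟩
  have hpc : ∀ i, Continuous (p i) := by
    intro i
    obtain ⟨S, b, c, h⟩ := exists_qd (hp i)
    exact h.cont
  have hcl : ∀ i, IsClosed {x | f x = p i x} := fun i => isClosed_eq hfc (hpc i)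
  have hUcl : ∀ i x, x ∈ closure (U f (p i)) → f x = p i x := fun i x hx =>
    (closure_minimal interior_subset (hcl i)) hx
  have hzero : ∀ i j, i ≠ j → ∀ O : Set (E n), IsOpen O → O.Nonempty →
      ∃ x ∈ O, p i x - p j x ≠ 0 := by
    intro i j hij O hO hne
    by_contra hcon
    push Not at hcon
    obtain ⟨S, b, c, h⟩ := hqd i j
    have := nonvanish h hO hne hcon
    exact hij (hinj (funext fun x => sub_eq_zero.mp (this x)))
  have hdisj : ∀ i j, i ≠ j → Disjoint (U f (p i)) (U f (p j)) := by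
    intro i j hij
    rw [Set.disjoint_iff_inter_eq_empty]
    by_contra hne
    obtain ⟨x, hx, hx2⟩ := hzero i j hij _ ((hUo i).inter (hUo j))
      (nonempty_iff_ne_empty.mpr hne)
    have h1 : x ∈ {x | f x = p i x} := interior_subset hx.1
    have h2 : x ∈ {x | f x = p j x} := interior_subset hx.2
    have h1' : f x = p i x := h1
    have h2' : f x = p j x := h2
    exact hx2 (by rw [← h1', ← h2', sub_self])
  have hdense : Dense (⋃ i, U f (p i)) := by
    refine dense_iUnion_interior_of_closed hcl (eq_univ_of_forall fun x => ?_)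
    obtain ⟨i, hi⟩ := hsel x
    exact mem_iUnion.mpr ⟨i, hi⟩
  set T : E n → Set ι := fun x => {i | x ∈ closure (U f (p i))} with hT
  have hTne : ∀ x, (T x).Nonempty := by
    intro x
    have h1 : x ∈ closure (⋃ i, U f (p i)) := hdense x
    rw [closure_iUnion_of_finite] at h1
    obtain ⟨i, hi⟩ := mem_iUnion.mp h1
    exact ⟨i, hi⟩
  by_contra hcon
  push Not at hcon
  obtain ⟨xb, hxb, hxb2⟩ := hcon
  have hex : ∃ k : ℕ, ∃ x, (x ∈ D ∧ ∀ i, x ∉ U f (p i)) ∧ (T x).ncard = k :=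
    ⟨_, xb, ⟨hxb, hxb2⟩, rfl⟩
  obtain ⟨x0, ⟨hx0D, hx0⟩, hx0c⟩ := Nat.find_spec hex
  have hmin : ∀ x, x ∈ D → (∀ i, x ∉ U f (p i)) → (T x0).ncard ≤ (T x).ncard := by
    intro x h1 h2
    rw [hx0c]
    exact Nat.find_min' hex ⟨x, ⟨h1, h2⟩, rfl⟩
  -- a ball on which T is contained in T x0
  obtain ⟨r, hr, hball⟩ : ∃ r > 0, ∀ x ∈ ball x0 r, x ∈ D ∧ T x ⊆ T x0 := by
    have hO : IsOpen (D ∩ ⋂ i ∈ (T x0)ᶜ, (closure (U f (p i)))ᶜ) :=
      hD.inter ((Set.toFinite _).isOpen_biInter fun i _ => isClosed_closure.isOpen_compl)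
    have hx0O : x0 ∈ D ∩ ⋂ i ∈ (T x0)ᶜ, (closure (U f (p i)))ᶜ :=
      ⟨hx0D, mem_iInter₂.mpr fun i hi => hi⟩
    obtain ⟨r, hr, hrs⟩ := Metric.isOpen_iff.mp hO x0 hx0O
    refine ⟨r, hr, fun x hx => ⟨(hrs hx).1, fun i hi => ?_⟩⟩
    by_contra hn
    exact (mem_iInter₂.mp (hrs hx).2 i hn) hi
  have hTeq : ∀ x ∈ ball x0 r, (∀ i, x ∉ U f (p i)) → T x = T x0 := by
    intro x hx hb
    exact Set.eq_of_subset_of_ncard_le (hball x hx).2 (hmin x (hball x hx).1 hb) (Set.toFinite _)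
  -- two different pieces
  obtain ⟨a, ha⟩ := hTne x0
  obtain ⟨b, hb, hab⟩ : ∃ b ∈ T x0, a ≠ b := by
    by_contra hcon
    push Not at hcon
    refine hx0 a (mem_interior.mpr ⟨ball x0 r, fun x hx => ?_, isOpen_ball, mem_ball_self hr⟩)
    obtain ⟨i, hi⟩ := hTne x
    have h1 := hcon i ((hball x hx).2 hi)
    rw [← h1] at hi
    exact hUcl a x hi
  obtain ⟨S, bb, c, hq⟩ := hqd a b
  have hq0 : ∀ x ∈ ball x0 r, (∀ i, x ∉ U f (p i)) → p a x - p b x = 0 := by
    intro x hx hbad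
    have h1 := hTeq x hx hbad
    have h2 : f x = p a x := hUcl a x (by rw [← h1] at ha; exact ha)
    have h3 : f x = p b x := hUcl b x (by rw [← h1] at hb; exact hb)
    rw [← h2, ← h3, sub_self]
  have hnF : ¬ Fact (fun x => p a x - p b x) := by
    intro hF
    exact hfac a b hab hF x0 hx0D (sub_eq_zero.mp (hq0 x0 (mem_ball_self hr) hx0))
  obtain ⟨y, hy, z, hz, hseg⟩ := seg hq hnF ((hUo a).inter isOpen_ball) ((hUo b).inter isOpen_ball)
    (_root_.mem_closure_iff.mp ha _ isOpen_ball (mem_ball_self hr) |>.mono fun x hx => ⟨hx.2, hx.1⟩)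
    (_root_.mem_closure_iff.mp hb _ isOpen_ball (mem_ball_self hr) |>.mono fun x hx => ⟨hx.2, hx.1⟩)
  have hsegball : segment ℝ y z ⊆ ball x0 r := (convex_ball x0 r).segment_subset hy.2 hz.2
  obtain ⟨x1, hx1s, hx1b⟩ : ∃ x1 ∈ segment ℝ y z, ∀ i, x1 ∉ U f (p i) := by
    by_contra hcon
    push Not at hcon
    have hsub : segment ℝ y z ⊆ U f (p a) ∪ ⋃ i ∈ {i | i ≠ a}, U f (p i) := by
      intro x hx
      obtain ⟨i, hi⟩ := hcon x hx
      by_cases hia : i = a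
      · left; rwa [← hia]
      · right; exact mem_biUnion (show i ∈ {i | i ≠ a} from hia) hi
    have hd2 : Disjoint (U f (p a)) (⋃ i ∈ {i | i ≠ a}, U f (p i)) := by
      rw [disjoint_iUnion₂_right]
      intro i hi
      exact hdisj a i (Ne.symm hi)
    have h1 := (convex_segment y z).isPreconnected.subset_left_of_subset_union (hUo a)
      (isOpen_biUnion fun i _ => hUo i) hd2 hsub ⟨y, left_mem_segment ℝ _ _, hy.1⟩
    exact (Set.disjoint_left.mp (hdisj a b hab) (h1 (right_mem_segment ℝ _ _))) hz.1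
  have hx1B := hsegball hx1s
  have hqx1 := hq0 x1 hx1B hx1b
  have hg : S x1 + bb ≠ 0 := fun h => hseg x1 hx1s ⟨hqx1, h⟩
  have hcov : ∀ x ∈ ball x0 r, p a x - p b x ≠ 0 → ∃ i, x ∈ U f (p i) := by
    intro x hx hne
    by_contra hcon
    push Not at hcon
    exact hne (hq0 x hx hcon)
  obtain ⟨k, ρ1, hρ1, hk⟩ := side hq hqx1 hg isOpen_ball hx1B (fun i => U f (p i)) hUo hdisj hcov
  obtain ⟨k', ρ2, hρ2, hk'⟩ := side hq.neg (x1 := x1) (by rw [hqx1, neg_zero]) (by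
      intro h
      apply hg
      have : -(S x1 + bb) = 0 := by
        rw [← h]; simp; abel
      exact neg_eq_zero.mp this) isOpen_ball hx1B (fun i => U f (p i)) hUo hdisj
      (fun x hx hne => hcov x hx (fun h => hne (by rw [h, neg_zero])))
  set ρ := min ρ1 ρ2 with hρ
  have hρ0 : 0 < ρ := lt_min hρ1 hρ2
  have hpos : ∀ x ∈ ball x1 ρ, 0 < p a x - p b x → x ∈ U f (p k) := fun x hx h =>
    hk x (ball_subset_ball (min_le_left _ _) hx) h
  have hneg : ∀ x ∈ ball x1 ρ, p a x - p b x < 0 → x ∈ U f (p k') := fun x hx h =>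
    hk' x (ball_subset_ball (min_le_right _ _) hx) (by linarith)
  have hsame : ∀ i j x, x ∈ U f (p i) → x ∈ U f (p j) → i = j := by
    intro i j x hi hj
    by_contra hij
    exact Set.disjoint_left.mp (hdisj i j hij) hi hj
  have hTx1 := hTeq x1 hx1B hx1b
  have hmem : ∀ i ∈ T x0, i = k ∨ i = k' := by
    intro i hi
    rw [← hTx1] at hi
    obtain ⟨x, hx⟩ := _root_.mem_closure_iff.mp hi _ isOpen_ball (mem_ball_self hρ0)
    obtain ⟨x', hx', hne⟩ := hzero a b hab _ (isOpen_ball.inter (hUo i)) ⟨x, hx⟩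
    rcases lt_or_gt_of_ne hne with h | h
    · right; exact hsame _ _ x' hx'.2 (hneg x' hx'.1 h)
    · left; exact hsame _ _ x' hx'.2 (hpos x' hx'.1 h)
  -- extension of the formula to the zero set
  have hext : ∀ (g : E n → ℝ), Continuous g →
      (∀ x ∈ ball x1 ρ, p a x - p b x ≠ 0 → f x = g x) → ∀ x ∈ ball x1 ρ, f x = g x := by
    intro g hgc hfg x hx
    have hclg : IsClosed {x | f x = g x} := isClosed_eq hfc hgc
    refine hclg.closure_subset_iff.mpr (?_ : ball x1 ρ ∩ {x | p a x - p b x ≠ 0} ⊆ _) ?_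
    · intro x hx
      exact hfg x hx.1 hx.2
    · rw [_root_.mem_closure_iff]
      intro O hO hxO
      obtain ⟨x', hx', hne⟩ := hzero a b hab _ (hO.inter isOpen_ball) ⟨x, hxO, hx⟩
      exact ⟨x', hx'.1, hx'.2, hne⟩
  have hfk : ∀ i x, x ∈ U f (p i) → f x = p i x := by
    intro i x hx
    have h1 : x ∈ {x | f x = p i x} := interior_subset hx
    exact h1
  obtain ⟨Sa, ba, ca, hqa⟩ := exists_qd (hp a)
  obtain ⟨Sb, bb', cb, hqb⟩ := exists_qd (hp b)
  have hperp : ∀ w, ⟪S x1 + bb, w⟫ = 0 → ⟪w, S w⟫ = 0 := by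
    rcases hmem a ha with hak | hak
    · have hbk : b = k' := by
        rcases hmem b hb with h | h
        · exact absurd (hak.trans h.symm) hab
        · exact h
      refine kink hqb hq hρ0 one_ne_zero ?_ hqx1 hg (htw x1)
      refine hext _ (by have := hpc a; have := hpc b; fun_prop) fun x hx hne => ?_
      rcases lt_or_gt_of_ne hne with h | h
      · rw [max_eq_right h.le, mul_zero, add_zero, hbk]
        exact hfk _ _ (hneg x hx h)
      · rw [max_eq_left h.le, one_mul, add_sub_cancel, hak]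
        exact hfk _ _ (hpos x hx h)
    · have hbk : b = k := by
        rcases hmem b hb with h | h
        · exact h
        · exact absurd (hak.trans h.symm) hab
      refine kink hqa hq hρ0 (ε := -1) (by norm_num) ?_ hqx1 hg (htw x1)
      refine hext _ (by have := hpc a; have := hpc b; fun_prop) fun x hx hne => ?_
      rcases lt_or_gt_of_ne hne with h | h
      · rw [max_eq_right h.le, mul_zero, add_zero, hak]
        exact hfk _ _ (hneg x hx h)
      · have h1 := hfk _ _ (hpos x hx h)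
        rw [max_eq_left h.le, h1, ← hbk]
        ring
  exact hnF (fact_of_perp hq hqx1 rfl hg hperp)

/-- sign of a Boolean -/
def sg (s : Bool) : ℝ := if s then 1 else -1

lemma sg_sq (s : Bool) : sg s * sg s = 1 := by unfold sg; split_ifs <;> norm_num

theorem arrangement (hfc : Continuous f) (p : ι → E n → ℝ) (hp : ∀ i, IsQuadratic (p i))
    (hinj : Function.Injective p) (hsel : ∀ x, ∃ i, f x = p i x)
    (htw : ∀ x, TwiceSemidiff f x) : IsPLQ f := by
  classical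
  have := Fintype.ofFinite ι
  have hpc : ∀ i, Continuous (p i) := by
    intro i
    obtain ⟨S, b, c, h⟩ := exists_qd (hp i)
    exact h.cont
  -- affine factors for every pair
  have hch : ∀ k : ι × ι, ∃ (a : Bool → E n) (β : Bool → ℝ), (∀ s, ∃ x, ⟪a s, x⟫ + β s ≠ 0) ∧
      (k.1 ≠ k.2 → Fact (fun x => p k.1 x - p k.2 x) →
        ∀ x, p k.1 x - p k.2 x = (⟪a true, x⟫ + β true) * (⟪a false, x⟫ + β false)) := by
    intro k
    by_cases h : k.1 ≠ k.2 ∧ Fact (fun x => p k.1 x - p k.2 x)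
    · obtain ⟨h1, a₁, β₁, a₂, β₂, h2⟩ := h
      refine ⟨fun s => if s then a₁ else a₂, fun s => if s then β₁ else β₂, fun s => ?_,
        fun _ _ x => by simpa using h2 x⟩
      by_contra hcon
      push Not at hcon
      refine h1 (hinj (funext fun x => sub_eq_zero.mp ?_))
      have h3 : p k.1 x - p k.2 x = (⟪a₁, x⟫ + β₁) * (⟪a₂, x⟫ + β₂) := h2 x
      rw [h3]
      have := hcon x
      cases s
      · simp only [Bool.false_eq_true, if_false] at this
        rw [this, mul_zero]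
      · simp only [if_true] at this
        rw [this, zero_mul]
    · refine ⟨fun _ => 0, fun _ => 1, fun s => ⟨0, by simp⟩, fun h1 h2 => absurd ⟨h1, h2⟩ h⟩
  choose a β hne hprod using hch
  -- the affine functions, indexed by K
  let K := (ι × ι) × Bool
  let L : K → E n → ℝ := fun k x => ⟪a k.1 k.2, x⟫ + β k.1 k.2
  have hLc : ∀ k, Continuous (L k) := fun k => by simp only [L]; fun_prop
  set D : Set (E n) := ⋂ k, {x | L k x ≠ 0} with hD
  have hDo : IsOpen D := isOpen_iInter_of_finite fun k => isOpen_ne_fun (hLc k) continuous_const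
  have hDd : Dense D := by
    refine dense_iInter_of_isOpen (fun k => isOpen_ne_fun (hLc k) continuous_const) fun k => ?_
    -- the complement of a proper hyperplane is dense
    obtain ⟨z, hz⟩ := hne k.1 k.2
    intro x
    rw [_root_.mem_closure_iff]
    intro O hO hxO
    by_cases hx : L k x = 0
    · have hc : Continuous fun t : ℝ => x + t • (z - x) := by fun_prop
      have h1 : ∀ᶠ t : ℝ in 𝓝[≠] 0, x + t • (z - x) ∈ O := by
        refine nhdsWithin_le_nhds (hc.continuousAt.eventually_mem ?_)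
        simpa using hO.mem_nhds hxO
      obtain ⟨t, ht, ht0⟩ := (h1.and self_mem_nhdsWithin).exists
      refine ⟨_, ht, ?_⟩
      change ⟪a k.1 k.2, x + t • (z - x)⟫ + β k.1 k.2 ≠ 0
      have h2 : ⟪a k.1 k.2, x + t • (z - x)⟫ + β k.1 k.2 =
          (1 - t) * (⟪a k.1 k.2, x⟫ + β k.1 k.2) + t * (⟪a k.1 k.2, z⟫ + β k.1 k.2) := by
        rw [inner_add_right, inner_smul_right, inner_sub_right]; ring
      have h3 : ⟪a k.1 k.2, x⟫ + β k.1 k.2 = 0 := hx
      rw [h2, h3, mul_zero, zero_add]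
      exact mul_ne_zero ht0 hz
    · exact ⟨x, hxO, hx⟩
  have hfac : ∀ i j, i ≠ j → Fact (fun x => p i x - p j x) → ∀ x ∈ D, p i x ≠ p j x := by
    intro i j hij hF x hx heq
    have h1 := hprod (i, j) hij hF x
    simp only at h1
    rw [heq, sub_self] at h1
    have h2 : L ((i, j), true) x ≠ 0 := mem_iInter.mp hx ((i, j), true)
    have h3 : L ((i, j), false) x ≠ 0 := mem_iInter.mp hx ((i, j), false)
    exact mul_ne_zero h2 h3 h1.symm
  have hkey := key hfc p hp hinj hsel D hDo hfac htw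
  -- cells
  set C : (K → Bool) → Set (E n) := fun σ => {x | ∀ k, 0 < sg (σ k) * L k x} with hC
  set P : (K → Bool) → Set (E n) := fun σ => {x | ∀ k, 0 ≤ sg (σ k) * L k x} with hP
  have hCD : ∀ σ, C σ ⊆ D := by
    intro σ x hx
    rw [hD, mem_iInter]
    intro k h0
    have := hx k
    rw [h0, mul_zero] at this
    exact lt_irrefl _ this
  have hDC : ∀ x ∈ D, ∃ σ, x ∈ C σ := by
    intro x hx
    refine ⟨fun k => decide (0 < L k x), fun k => ?_⟩
    have h1 : L k x ≠ 0 := mem_iInter.mp hx k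
    by_cases h : 0 < L k x
    · simp [sg, h]
    · have : L k x < 0 := lt_of_le_of_ne (not_lt.mp h) h1
      simp [sg, h]
      exact this
  have hLaff : ∀ k (x y : E n) (s t : ℝ), s + t = 1 →
      L k (s • x + t • y) = s * L k x + t * L k y := by
    intro k x y s t hst
    simp only [L]
    rw [inner_add_right, inner_smul_right, inner_smul_right]
    linear_combination -(β k.1 k.2) * hst
  have hCconv : ∀ σ, Convex ℝ (C σ) := by
    intro σ x hx y hy s t hs ht hst k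
    rw [hLaff k x y s t hst]
    have h1 := hx k
    have h2 := hy k
    rcases eq_or_lt_of_le hs with h | h
    · have : t = 1 := by linarith
      rw [← h, this]; simpa using h2
    · have : 0 < s * (sg (σ k) * L k x) := mul_pos h h1
      have : 0 ≤ t * (sg (σ k) * L k y) := mul_nonneg ht h2.le
      linarith
  have hPC : ∀ σ, (C σ).Nonempty → P σ ⊆ closure (C σ) := by
    rintro σ ⟨z, hz⟩ x hx
    rw [_root_.mem_closure_iff]
    intro O hO hxO
    have hc : Continuous fun t : ℝ => (1 - t) • x + t • z := by fun_prop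
    have h1 : ∀ᶠ t : ℝ in 𝓝[>] 0, (1 - t) • x + t • z ∈ O := by
      refine nhdsWithin_le_nhds (hc.continuousAt.eventually_mem ?_)
      simpa using hO.mem_nhds hxO
    have h2 : ∀ᶠ t : ℝ in 𝓝[>] 0, t < 1 := nhdsWithin_le_nhds (Iio_mem_nhds one_pos)
    obtain ⟨t, ht, ht1, ht0⟩ := (h1.and (h2.and self_mem_nhdsWithin)).exists
    refine ⟨_, ht, fun k => ?_⟩
    rw [hLaff k x z (1 - t) t (by ring)]
    have h3 := hx k
    have h4 := hz k
    have h5 : 0 ≤ (1 - t) * (sg (σ k) * L k x) := mul_nonneg (by linarith) h3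
    have h6 : 0 < t * (sg (σ k) * L k z) := mul_pos ht0 h4
    linarith
  have hPcl : ∀ σ, IsClosed (P σ) := by
    intro σ
    have : P σ = ⋂ k, {x | 0 ≤ sg (σ k) * L k x} := by ext x; simp [hP]
    rw [this]
    exact isClosed_iInter fun k => isClosed_le continuous_const (continuous_const.mul (hLc k))
  have hCP : ∀ σ, C σ ⊆ P σ := fun σ x hx k => (hx k).le
  have hpiece : ∀ σ, (C σ).Nonempty → ∃ i, ∀ x ∈ P σ, f x = p i x := by
    rintro σ ⟨z, hz⟩
    obtain ⟨i, hi⟩ := hkey z (hCD σ hz)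
    refine ⟨i, fun x hx => ?_⟩
    have hUo : ∀ j, IsOpen (U f (p j)) := fun j => isOpen_interior
    have hsub : C σ ⊆ U f (p i) ∪ ⋃ j ∈ {j | j ≠ i}, U f (p j) := by
      intro x hx
      obtain ⟨j, hj⟩ := hkey x (hCD σ hx)
      by_cases hji : j = i
      · left; rwa [← hji]
      · right; exact mem_biUnion (show j ∈ {j | j ≠ i} from hji) hj
    have hd2 : Disjoint (U f (p i)) (⋃ j ∈ {j | j ≠ i}, U f (p j)) := by
      rw [disjoint_iUnion₂_right]
      intro j hj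
      rw [Set.disjoint_iff_inter_eq_empty]
      by_contra hne
      obtain ⟨S, b, c, h⟩ := exists_qd (hp i)
      obtain ⟨S', b', c', h'⟩ := exists_qd (hp j)
      refine hj (hinj (funext fun x => ?_)).symm
      refine sub_eq_zero.mp (nonvanish (h.sub h') ((hUo i).inter (hUo j))
        (nonempty_iff_ne_empty.mpr hne) (fun y hy => ?_) x)
      have h1 : y ∈ {x | f x = p i x} := interior_subset hy.1
      have h2 : y ∈ {x | f x = p j x} := interior_subset hy.2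
      have h1' : f y = p i y := h1
      have h2' : f y = p j y := h2
      rw [← h1', ← h2', sub_self]
    have h1 := (hCconv σ).isPreconnected.subset_left_of_subset_union (hUo i)
      (isOpen_biUnion fun j _ => hUo j) hd2 hsub ⟨z, hz, hi⟩
    have h2 : closure (C σ) ⊆ {x | f x = p i x} :=
      closure_minimal (h1.trans interior_subset) (isClosed_eq hfc (hpc i))
    exact h2 (hPC σ ⟨z, hz⟩ hx)
  have hcover : ∀ x, ∃ σ, (C σ).Nonempty ∧ x ∈ P σ := by
    intro x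
    have h1 : x ∈ closure (⋃ σ, C σ) := by
      refine closure_mono (fun y hy => ?_) (hDd x)
      exact mem_iUnion.mpr (hDC y hy)
    rw [closure_iUnion_of_finite] at h1
    obtain ⟨σ, hσ⟩ := mem_iUnion.mp h1
    exact ⟨σ, closure_nonempty_iff.mp ⟨x, hσ⟩, (closure_minimal (hCP σ) (hPcl σ)) hσ⟩
  -- reindex by Fin
  have hfin : Finite {σ : K → Bool // (C σ).Nonempty} := inferInstance
  obtain ⟨m, ⟨e⟩⟩ := Finite.exists_equiv_fin {σ : K → Bool // (C σ).Nonempty}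
  choose ix hix using fun σ : {σ : K → Bool // (C σ).Nonempty} => hpiece σ.1 σ.2
  refine ⟨hfc, m, fun j => p (ix (e.symm j)), fun j => P (e.symm j).1, fun j => hp _,
    fun j => ?_, ?_, fun j x hx => hix _ x hx⟩
  · obtain ⟨m', ⟨e'⟩⟩ := Finite.exists_equiv_fin K
    refine ⟨m', fun l => -(sg ((e.symm j).1 (e'.symm l))) • a (e'.symm l).1 (e'.symm l).2,
      fun l => sg ((e.symm j).1 (e'.symm l)) * β (e'.symm l).1 (e'.symm l).2, ?_⟩
    ext x
    constructor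
    · intro hx l
      have := hx (e'.symm l)
      simp only [L] at this
      rw [inner_smul_left]
      simp only [conj_trivial]
      linarith
    · intro hx k
      have := hx (e' k)
      simp only [Equiv.symm_apply_apply] at this
      rw [inner_smul_left] at this
      simp only [conj_trivial] at this
      simp only [L]
      linarith
  · refine eq_univ_of_forall fun x => ?_
    obtain ⟨σ, hσ, hx⟩ := hcover x
    refine mem_iUnion.mpr ⟨e ⟨σ, hσ⟩, ?_⟩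
    simpa using hx

end Key

/-- **Affirmative answer to Q1.** Every piecewise quadratic function on `ℝⁿ` that is twice
semidifferentiable at every point is piecewise linear-quadratic. -/
theorem result (n : ℕ) (f : E n → ℝ) (hf : IsPQ f) (htw : ∀ x, TwiceSemidiff f x) : IsPLQ f := by
  obtain ⟨hfc, m, q, hq, hsel⟩ := hf
  refine arrangement (ι := Set.range q) hfc (fun p => p.1) ?_ Subtype.val_injective ?_ htw
  · rintro ⟨p, i, rfl⟩
    exact hq i
  · intro x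
    obtain ⟨i, hi⟩ := hsel x
    exact ⟨⟨q i, i, rfl⟩, hi⟩

end Pool.Agent.Results.MP_83d7ff_an.SemidifferentiablePLQ
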